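import Pool.Agent.H224R2.Mah.Defs

/-!
# L2 of the symmetric Mahler conjecture (helper224's plan): `adj(∑ c_j a_j a_jᵀ)` is divergence free
-/

namespace Pool.Agent.H224R2.Mah

open MeasureTheory Set Filter Topology
open scoped ENNReal RealInnerProductSpace

section
variable {n : ℕ} {ι : Type} [Fintype ι]

theorem L2_sum_adj (X : Matrix (Fin n) (Fin n) ℝ) (v : Fin n → ℝ) (l : Fin n) :
    ∑ k, v k * X.adjugate k l = (X.updateRow l v).det := by
  have h1 : X.adjugate.transpose.mulVec v = Matrix.cramer X.transpose v := by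
    rw [Matrix.adjugate_transpose, Matrix.cramer_eq_adjugate_mulVec]
  have h2 := congrFun h1 l
  rw [Matrix.cramer_transpose_apply] at h2
  rw [← h2]
  simp only [Matrix.mulVec, dotProduct, Matrix.transpose_apply]
  exact Finset.sum_congr rfl fun k _ => mul_comm _ _

theorem L2_det_const (M : Matrix (Fin n) (Fin n) ℝ) (v : Fin n → ℝ) (s : ℝ) (l : Fin n) :
    ((M + s • Matrix.vecMulVec v v).updateRow l v).det = (M.updateRow l v).det := by
  apply Matrix.det_eq_of_forall_row_eq_smul_add_const (fun i => if i = l then 0 else s * v i) l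
    (by simp)
  intro i j
  by_cases hi : i = l
  · subst hi; simp
  · simp [hi, Matrix.vecMulVec_apply, mul_assoc]

theorem L2_mat_apply (c : ι → ℝ) (a : ι → Fin n → ℝ) (i k : Fin n) :
    mat c a i k = ∑ j, c j * (a j i * a j k) := by
  simp [mat, Matrix.sum_apply, Matrix.vecMulVec_apply]

theorem L2_diff (a : ι → Fin n → ℝ) (k l : Fin n) :
    Differentiable ℝ (fun x : ι → ℝ => (mat x a).adjugate k l) := by
  have h : (fun x : ι → ℝ => (mat x a).adjugate k l) =
      fun x => ∑ σ : Equiv.Perm (Fin n), ((Equiv.Perm.sign σ : ℤ) : ℝ) *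
        ∏ i, ((mat x a).updateRow l (Pi.single k 1)) (σ i) i := by
    funext x
    rw [Matrix.adjugate_apply, Matrix.det_apply']
  rw [h]
  refine Differentiable.fun_sum fun σ _ => Differentiable.const_mul ?_ _
  have h2 : ∀ i, Differentiable ℝ
      (fun x : ι → ℝ => ((mat x a).updateRow l (Pi.single k (1 : ℝ))) (σ i) i) := by
    intro i
    by_cases hi : σ i = l
    · simp only [hi, Matrix.updateRow_self]
      exact differentiable_const _
    · simp only [Matrix.updateRow_ne hi, L2_mat_apply]
      fun_prop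
  intro x
  exact (HasFDerivAt.finsetProd fun i _ => (h2 i x).hasFDerivAt).differentiableAt

/-- L2. `adj(∑ c_j a_j a_jᵀ)` is divergence free: the derivative of `adj` at `M` in the direction
`∑ c'_j a_{jk} a_j a_jᵀ`, row `k`, summed over `k`, vanishes. (`adj(M + s a aᵀ) a = adj(M) a`.) -/
theorem L2_divfree (a : ι → Fin n → ℝ) (c c' : ι → ℝ) (l : Fin n) :
    ∑ k, deriv (fun t : ℝ => (mat (fun j => c j + t * (c' j * a j k)) a).adjugate k l) 0 = 0 := by
  classical
  set φ : Fin n → (ι → ℝ) → ℝ := fun k x => (mat x a).adjugate k l with hφ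
  have hd : ∀ k, HasFDerivAt (φ k) (fderiv ℝ (φ k) c) c := fun k =>
    ((L2_diff a k l) c).hasFDerivAt
  have hline : ∀ (k : Fin n) (w : ι → ℝ),
      HasDerivAt (fun t : ℝ => φ k (c + t • w)) (fderiv ℝ (φ k) c w) 0 := by
    intro k w
    have h1 : HasDerivAt (fun t : ℝ => c + t • w) w 0 := by
      simpa using ((hasDerivAt_id (0 : ℝ)).smul_const w).const_add c
    have h0 : HasFDerivAt (φ k) (fderiv ℝ (φ k) c) ((fun t : ℝ => c + t • w) 0) := by
      simpa using hd k
    exact h0.comp_hasDerivAt (0 : ℝ) h1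
  have key : ∀ j, ∑ k, a j k * fderiv ℝ (φ k) c (Pi.single j 1) = 0 := by
    intro j
    have h1 : HasDerivAt (fun t : ℝ => ∑ k, a j k * φ k (c + t • Pi.single j 1))
        (∑ k, a j k * fderiv ℝ (φ k) c (Pi.single j 1)) 0 :=
      HasDerivAt.fun_sum fun k _ => (hline k (Pi.single j 1)).const_mul (a j k)
    have h2 : (fun t : ℝ => ∑ k, a j k * φ k (c + t • Pi.single j 1)) =
        fun _ => ((mat c a).updateRow l (a j)).det := by
      funext t
      rw [hφ]
      simp only []
      rw [L2_sum_adj]
      have h3 : mat (c + t • Pi.single j 1) a = mat c a + t • Matrix.vecMulVec (a j) (a j) := by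
        ext i k
        simp only [L2_mat_apply, Matrix.add_apply, Matrix.smul_apply, Matrix.vecMulVec_apply,
          Pi.add_apply, Pi.smul_apply, smul_eq_mul, add_mul, Finset.sum_add_distrib]
        congr 1
        rw [Finset.sum_eq_single j]
        · simp
        · intro b _ hb
          simp [Pi.single_eq_of_ne hb]
        · simp
      rw [h3, L2_det_const]
    rw [h2] at h1
    exact h1.unique (hasDerivAt_const _ _)
  have hder : ∀ k, deriv (fun t : ℝ => (mat (fun j => c j + t * (c' j * a j k)) a).adjugate k l) 0 =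
      ∑ j, c' j * (a j k * fderiv ℝ (φ k) c (Pi.single j 1)) := by
    intro k
    have h1 := (hline k (fun j => c' j * a j k)).deriv
    have h2 : (fun t : ℝ => φ k (c + t • (fun j => c' j * a j k))) =
        fun t : ℝ => (mat (fun j => c j + t * (c' j * a j k)) a).adjugate k l := rfl
    rw [h2] at h1
    rw [h1]
    have h3 : (fun j => c' j * a j k) = ∑ j, (c' j * a j k) • (Pi.single j 1 : ι → ℝ) := by
      funext i
      simp [Finset.sum_apply, Pi.single_apply]
    rw [h3, map_sum]
    refine Finset.sum_congr rfl fun j _ => ?_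
    rw [map_smul, smul_eq_mul]
    ring
  simp only [hder]
  rw [Finset.sum_comm]
  refine Finset.sum_eq_zero fun j _ => ?_
  rw [← Finset.mul_sum, key j, mul_zero]

end

end Pool.Agent.H224R2.Mah
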